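import Pool.Agent.H634.Dm

/-!
# The dominating number over Gitik's model
-/

namespace Pool.Agent.Results.MP_9cf23f_lc.NoDominatingNumber

open FirstOrder FirstOrder.Language
open Pool.Agent.Helper672.Plain (LSet)
open Pool.Agent.H310Cards
open Pool.Agent.H635Amen (ZF)
open Pool.Agent.H525Emb (IsTrans IsForcingExtension)
open Pool.Agent.H634

universe u

/-- Let `V` be a model of ZF in which every infinite cardinal has cofinality `ω` (such as Gitik's
model), and let the model `N` of ZF be a set-generic extension of `V`. Then no dominating family of
functions from `ω` to `ω` in `N` is well-orderable in `N`: the dominating number does not exist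
in `N`. -/
theorem result (N : Type u) [LSet.Structure N] (V : LSet.Substructure N) (hN : ZF N) (hV : ZF V)
    (htr : IsTrans V) (hfe : IsForcingExtension V)
    (hcof : ∀ κ : V, IsInfCardinal κ → HasCofOmega κ) :
    ∀ w D : N, IsOmega w → IsDominating w D → ¬ IsWellOrderable D := by
  let _ := hN.toZermelo
  let _ := hV.toZermelo
  obtain ⟨P, le, G, hP, hG, hgen⟩ := hfe
  exact fun w D hw hD => no_dominating hN hV htr (isPreorder_V htr hP) hG hgen hcof hw hD

end Pool.Agent.Results.MP_9cf23f_lc.NoDominatingNumber
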